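import Pool.Agent.Helper3.AK.Goals3

/-! Packet AK-CTA (MP_75608d_al, helper3): the binomial moment of one block. -/

namespace Pool.Agent.Helper32.AK3

open Equiv Pool.Agent.Helper3.AK

lemma desc1 {N n : ℕ} (hN : N ≤ n) (h : ℕ) :
    N.descFactorial h * n ^ h ≤ N ^ h * n.descFactorial h := by
  induction h with
  | zero => simp
  | succ h ih =>
    rw [Nat.descFactorial_succ, Nat.descFactorial_succ, pow_succ, pow_succ]
    have h1 : (N - h) * n ≤ N * (n - h) := by
      rcases le_total h N with hh | hh
      · obtain ⟨a, rfl⟩ := Nat.exists_eq_add_of_le hh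
        obtain ⟨b, rfl⟩ := Nat.exists_eq_add_of_le hN
        have e1 : h + a - h = a := by omega
        have e2 : h + a + b - h = a + b := by omega
        rw [e1, e2]
        nlinarith [Nat.zero_le (h * b)]
      · rw [Nat.sub_eq_zero_of_le hh, Nat.zero_mul]
        exact Nat.zero_le _
    calc (N - h) * N.descFactorial h * (n ^ h * n)
        = ((N - h) * n) * (N.descFactorial h * n ^ h) := by ring
      _ ≤ (N * (n - h)) * (N ^ h * n.descFactorial h) := Nat.mul_le_mul h1 ih
      _ = N ^ h * N * ((n - h) * n.descFactorial h) := by ring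

lemma desc2 {f : ℕ} (M h : ℕ) (hf : 2 * h ≤ f) :
    M.descFactorial h * f ^ h ≤ (2 * M) ^ h * f.descFactorial h := by
  induction h with
  | zero => simp
  | succ h ih =>
    rw [Nat.descFactorial_succ, Nat.descFactorial_succ, pow_succ, pow_succ]
    have h1 : (M - h) * f ≤ 2 * M * (f - h) := by
      have e1 : f ≤ 2 * (f - h) := by omega
      calc (M - h) * f ≤ M * (2 * (f - h)) := Nat.mul_le_mul (Nat.sub_le _ _) e1
        _ = 2 * M * (f - h) := by ring
    calc (M - h) * M.descFactorial h * (f ^ h * f)
        = ((M - h) * f) * (M.descFactorial h * f ^ h) := by ring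
      _ ≤ (2 * M * (f - h)) * ((2 * M) ^ h * f.descFactorial h) :=
          Nat.mul_le_mul h1 (ih (by omega))
      _ = (2 * M) ^ h * (2 * M) * ((f - h) * f.descFactorial h) := by ring

/-- Number of embeddings with values in a set. -/
lemma card_emb {m h : ℕ} (q : Fin m → Prop) [DecidablePred q] :
    (Finset.univ.filter (fun e : Fin h ↪ Fin m => ∀ i, q (e i))).card =
      (Finset.univ.filter q).card.descFactorial h := by
  classical
  have e1 : {e : Fin h ↪ Fin m // ∀ i, q (e i)} ≃ (Fin h ↪ {i : Fin m // q i}) :=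
    { toFun := fun e => ⟨fun i => ⟨e.1 i, e.2 i⟩, fun i j hij => by
        apply e.1.injective
        exact congrArg Subtype.val hij⟩
      invFun := fun e => ⟨e.trans (Function.Embedding.subtype _), fun i => (e i).2⟩
      left_inv := fun e => by
        apply Subtype.ext
        ext i
        rfl
      right_inv := fun e => by
        ext i
        rfl }
  rw [← Fintype.card_subtype, Fintype.card_congr e1, Fintype.card_embedding_eq, Fintype.card_fin,
    Fintype.card_subtype]

theorem cta : S_CTA := by
  intro n R h M f₀ N κ hκ hhR hhf hf₀ hN p A hA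
  classical
  set F : Perm (Fin n) → ℕ := fun g => (Finset.univ.filter (fun i => g (p i) ∈ A)).card with hF
  have hRHS : (0 : ℝ) ≤ 2 * ((2 * (M : ℝ) / f₀) * (N / n)) ^ h := by positivity
  have hMn : M ≤ n := by
    have := Fintype.card_le_of_embedding p
    simpa using this
  by_cases hfM : f₀ ≤ M
  swap
  · have hemp : Finset.univ.filter (fun g : Perm (Fin n) => f₀ ≤ F g) = ∅ := by
      rw [Finset.filter_eq_empty_iff]
      intro g _ hg
      have h1 : F g ≤ M := by
        have := Finset.card_filter_le (Finset.univ : Finset (Fin M)) (fun i => g (p i) ∈ A)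
        simpa using this
      omega
    rw [hemp, Finset.sum_empty]
    exact hRHS
  have hn : 0 < n := by omega
  have hhn : h ≤ n := by omega
  -- the moment
  have hmom : ∑ g, κ g * ((F g).descFactorial h : ℝ) ≤
      (M.descFactorial h : ℝ) * ((N.descFactorial h : ℝ) * (2 / (n.descFactorial h : ℝ))) := by
    have h1 : ∀ g, κ g * ((F g).descFactorial h : ℝ) =
        ∑ e : Fin h ↪ Fin M, if ∀ i, g (p (e i)) ∈ A then κ g else 0 := by
      intro g
      rw [← Finset.sum_filter, Finset.sum_const, nsmul_eq_mul, mul_comm,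
        card_emb (fun i => g (p i) ∈ A)]
    rw [Finset.sum_congr rfl fun g _ => h1 g, Finset.sum_comm]
    have h2 : ∀ e : Fin h ↪ Fin M,
        (∑ g : Perm (Fin n), if ∀ i, g (p (e i)) ∈ A then κ g else 0) ≤
        (N.descFactorial h : ℝ) * (2 / (n.descFactorial h : ℝ)) := by
      intro e
      rw [← Finset.sum_filter]
      set B := Finset.univ.filter (fun b : Fin h ↪ Fin n => ∀ i, b i ∈ A) with hB
      have hmaps : ∀ g ∈ Finset.univ.filter (fun g : Perm (Fin n) => ∀ i, g (p (e i)) ∈ A),
          (e.trans p).trans g.toEmbedding ∈ B := by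
        intro g hg
        rw [hB, Finset.mem_filter]
        exact ⟨Finset.mem_univ _, fun i => (Finset.mem_filter.1 hg).2 i⟩
      rw [← Finset.sum_fiberwise_of_maps_to hmaps]
      have hBcard : (B.card : ℝ) ≤ (N.descFactorial h : ℝ) := by
        rw [hB, card_emb (fun x => x ∈ A)]
        have : (Finset.univ.filter (fun x => x ∈ A)).card = A.card := by
          congr 1
          ext x
          simp
        rw [this]
        exact_mod_cast Nat.descFactorial_le h hA
      have h3 : ∀ b ∈ B, ∑ g ∈ (Finset.univ.filter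
          (fun g : Perm (Fin n) => ∀ i, g (p (e i)) ∈ A)).filter
            (fun g => (e.trans p).trans g.toEmbedding = b), κ g ≤
          2 / (n.descFactorial h : ℝ) := by
        intro b _
        refine le_trans ?_ (hκ.wise h hhR (e.trans p) b)
        apply Finset.sum_le_sum_of_subset_of_nonneg
        · intro g hg
          rw [Finset.mem_filter]
          refine ⟨Finset.mem_univ _, fun i => ?_⟩
          have := (Finset.mem_filter.1 hg).2
          exact DFunLike.congr_fun this i
        · intro g _ _
          exact hκ.nonneg g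
      calc _ ≤ ∑ b ∈ B, 2 / (n.descFactorial h : ℝ) := Finset.sum_le_sum h3
        _ = (B.card : ℝ) * (2 / (n.descFactorial h : ℝ)) := by
            rw [Finset.sum_const, nsmul_eq_mul]
        _ ≤ _ := by gcongr
    calc _ ≤ ∑ e : Fin h ↪ Fin M, (N.descFactorial h : ℝ) * (2 / (n.descFactorial h : ℝ)) :=
          Finset.sum_le_sum fun e _ => h2 e
      _ = _ := by
          rw [Finset.sum_const, nsmul_eq_mul, Finset.card_univ, Fintype.card_embedding_eq,
            Fintype.card_fin, Fintype.card_fin]
  -- Markov
  have hmark : (∑ g ∈ Finset.univ.filter (fun g : Perm (Fin n) => f₀ ≤ F g), κ g) *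
      (f₀.descFactorial h : ℝ) ≤ ∑ g, κ g * ((F g).descFactorial h : ℝ) := by
    rw [Finset.sum_mul]
    calc _ ≤ ∑ g ∈ Finset.univ.filter (fun g : Perm (Fin n) => f₀ ≤ F g),
          κ g * ((F g).descFactorial h : ℝ) := by
            apply Finset.sum_le_sum
            intro g hg
            have h1 : f₀ ≤ F g := (Finset.mem_filter.1 hg).2
            have h2 : (f₀.descFactorial h : ℝ) ≤ ((F g).descFactorial h : ℝ) := by
              exact_mod_cast Nat.descFactorial_le h h1
            exact mul_le_mul_of_nonneg_left h2 (hκ.nonneg g)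
      _ ≤ _ := by
            apply Finset.sum_le_sum_of_subset_of_nonneg (Finset.filter_subset _ _)
            intro g _ _
            exact mul_nonneg (hκ.nonneg g) (Nat.cast_nonneg _)
  have hfpos : (0 : ℝ) < (f₀.descFactorial h : ℝ) := by
    exact_mod_cast Nat.descFactorial_pos.2 (by omega)
  have hnpos : (0 : ℝ) < (n.descFactorial h : ℝ) := by
    exact_mod_cast Nat.descFactorial_pos.2 hhn
  have hf0 : (0 : ℝ) < (f₀ : ℝ) := by exact_mod_cast hf₀
  have hn0 : (0 : ℝ) < (n : ℝ) := by exact_mod_cast hn
  have hA1 : (M.descFactorial h : ℝ) / (f₀.descFactorial h : ℝ) ≤ (2 * (M : ℝ) / f₀) ^ h := by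
    rw [div_pow, div_le_div_iff₀ hfpos (pow_pos hf0 h)]
    exact_mod_cast desc2 M h hhf
  have hA2 : (N.descFactorial h : ℝ) / (n.descFactorial h : ℝ) ≤ ((N : ℝ) / n) ^ h := by
    rw [div_pow, div_le_div_iff₀ hnpos (pow_pos hn0 h)]
    exact_mod_cast desc1 hN h
  have hfin : (∑ g ∈ Finset.univ.filter (fun g : Perm (Fin n) => f₀ ≤ F g), κ g) ≤
      2 * (((M.descFactorial h : ℝ) / (f₀.descFactorial h : ℝ)) *
        ((N.descFactorial h : ℝ) / (n.descFactorial h : ℝ))) := by
    have h1 := hmark.trans hmom
    rw [← le_div_iff₀ hfpos] at h1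
    refine h1.trans (le_of_eq ?_)
    field_simp
  refine hfin.trans ?_
  rw [mul_pow]
  have hB1 : (0 : ℝ) ≤ (N.descFactorial h : ℝ) / (n.descFactorial h : ℝ) := by positivity
  have hB2 : (0 : ℝ) ≤ (2 * (M : ℝ) / f₀) ^ h := by positivity
  exact mul_le_mul_of_nonneg_left (mul_le_mul hA1 hA2 hB1 hB2) (by norm_num)

end Pool.Agent.Helper32.AK3
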